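import Pool.Agent.TH107.LB.AA
import Pool.Agent.TH107.RF.Conv
import Pool.Agent.TH107.RF.Res

set_option autoImplicit false

namespace Pool.Agent.Results.MP_7903c7_al.AutomorphismGroups

universe u v

/-- The Bass trace conjecture for the ring `R` and the group `G`. -/
def BassFor (R : Type u) [CommRing R] (G : Type v) [Group G] : Prop :=
  ∀ (k : ℕ) (A : Matrix (Fin k) (Fin k) (MonoidAlgebra R G)), A * A = A →
    ∀ g : G, ¬ IsUnit ((orderOf g : ℕ) : R) →
      ∑ i : Fin k, ∑ᶠ (h : G) (_ : IsConj h g), (A i i).coeff h = 0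

/-- `Γ` has a subgroup of finite index which is residually a finite `p`-group. -/
def VRes (p : ℕ) (Γ : Type) [Group Γ] : Prop :=
  ∃ N : Subgroup Γ, N.FiniteIndex ∧ ∀ g : N, g ≠ 1 →
    ∃ (F : Type) (_ : Group F) (_ : Finite F) (f : N →* F), IsPGroup p F ∧ f g ≠ 1

/-- The property `P` holds for some prime which is not a unit of `R`, or `R` has characteristic
zero and `P` holds for infinitely many primes. -/
def Large (R : Type u) [CommRing R] (P : ℕ → Prop) : Prop :=
  (∃ p : ℕ, p.Prime ∧ ¬ IsUnit (p : R) ∧ P p) ∨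
    (CharZero R ∧ ∀ m : ℕ, ∃ p : ℕ, m < p ∧ p.Prime ∧ P p)

/-- The subgroup `N` is contained in `M` and has finite index in it, or is normal in `M` and the
quotient `M / N` embeds in a virtually residually `p` group `Γ`, or in the automorphism group of a
finitely generated group `Γ` of this kind, or in the automorphism group of a finitely generated
commutative ring `A` such that `p` is not invertible modulo any associated prime, or is residually a
finite `p`-group, in each case for a large set of primes `p`. -/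
def Step (R : Type u) [CommRing R] {H : Type v} [Group H] (N M : Subgroup H) : Prop :=
  N ≤ M ∧ (N.relIndex M ≠ 0 ∨
    (∃ (Γ : Type) (_ : Group Γ) (f : M →* Γ), (∀ x : M, f x = 1 ↔ (x : H) ∈ N) ∧
      Large R fun p => VRes p Γ) ∨
    (∃ (Γ : Type) (_ : Group Γ) (f : M →* MulAut Γ), (∀ x : M, f x = 1 ↔ (x : H) ∈ N) ∧
      Group.FG Γ ∧ Large R fun p => VRes p Γ) ∨
    (∃ (A : Type) (_ : CommRing A) (f : M →* RingAut A), (∀ x : M, f x = 1 ↔ (x : H) ∈ N) ∧
      Algebra.FiniteType ℤ A ∧
      Large R fun p => ∀ P ∈ associatedPrimes A A, ¬ IsUnit ((p : ℕ) : A ⧸ P)) ∨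
    ∀ x : M, (x : H) ∉ N → Large R fun p =>
      ∃ (F : Type) (_ : Group F) (_ : Finite F) (f : M →* F),
        IsPGroup p F ∧ (∀ y : M, (y : H) ∈ N → f y = 1) ∧ f x ≠ 1)

/-- The group has a finite series of such steps. -/
def Series (R : Type u) [CommRing R] (H : Type v) [Group H] : Prop :=
  ∃ (k : ℕ) (S : ℕ → Subgroup H), S 0 = ⊥ ∧ S k = ⊤ ∧ ∀ i < k, Step R (S i) (S (i + 1))

/-- The Artin group of a finite Coxeter matrix; an entry `0` stands for the label infinity, that is,
for no relation. -/
abbrev ArtinGroup {n : ℕ} (M : CoxeterMatrix (Fin n)) : Type :=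
  PresentedGroup
    {r : FreeGroup (Fin n) | ∃ i j : Fin n, M.M i j ≠ 0 ∧
      r = ((List.range (M.M i j)).map
              (fun k => if Even k then FreeGroup.of i else FreeGroup.of j)).prod *
          (((List.range (M.M i j)).map
              (fun k => if Even k then FreeGroup.of j else FreeGroup.of i)).prod)⁻¹}

open Pool.Agent.TH107.LB

theorem VRes.rp {p : ℕ} (hp : p.Prime) {Γ : Type} [Group Γ] (h : VRes p Γ) : RP p Γ := by
  classical
  obtain ⟨N, hN, hsep⟩ := h
  haveI := Fact.mk hp
  refine ⟨N.normalCore, inferInstance, inferInstance, fun g hg => ?_⟩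
  by_cases hgC : g ∈ N.normalCore
  swap
  · exact ⟨N.normalCore, inferInstance, inferInstance, ⟨0, fun h hh => by simpa using hh⟩, hgC⟩
  obtain ⟨F, _, _, f, hF, hfg⟩ := hsep ⟨g, N.normalCore_le hgC⟩ (by
    intro h
    exact hg (congrArg Subtype.val h))
  obtain ⟨e, he⟩ := (IsPGroup.iff_card).1 hF
  have hkf : f.ker.FiniteIndex := Subgroup.finiteIndex_ker f
  have h1 : (f.ker.map N.subtype).FiniteIndex := by
    refine ⟨?_⟩
    rw [Subgroup.index_map_subtype]
    exact Nat.mul_ne_zero hkf.index_ne_zero hN.index_ne_zero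
  refine ⟨(f.ker.map N.subtype ⊓ N.normalCore).normalCore, inferInstance, inferInstance,
    ⟨e, fun h hh b => ?_⟩, fun h => ?_⟩
  · have h2 : b * h * b⁻¹ ∈ N.normalCore := Subgroup.Normal.conj_mem inferInstance h hh b
    have h3 : b * h ^ p ^ e * b⁻¹ = (b * h * b⁻¹) ^ p ^ e := conj_pow.symm
    rw [h3]
    refine ⟨⟨⟨b * h * b⁻¹, N.normalCore_le h2⟩ ^ p ^ e, ?_, rfl⟩, N.normalCore.pow_mem h2 _⟩
    change f _ = 1
    rw [map_pow, ← he, pow_card_eq_one']
  · obtain ⟨⟨y, hy, hyg⟩, _⟩ := Subgroup.normalCore_le _ h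
    apply hfg
    have h2 : y = ⟨g, N.normalCore_le hgC⟩ := Subtype.ext hyg
    rw [← h2]
    exact hy

theorem vres_of_rp {p : ℕ} {Γ : Type} [Group Γ] (h : RP p Γ) : VRes p Γ := by
  obtain ⟨N, hn, hf, hsep⟩ := h
  refine ⟨N, hf, fun g hg => ?_⟩
  obtain ⟨K, hK, hKf, ⟨e, he⟩, hgK⟩ := hsep g (fun h => hg (Subtype.ext h))
  have hfin : (K.subgroupOf N).FiniteIndex := inferInstance
  have hq : Finite (N ⧸ K.subgroupOf N) := Subgroup.finite_quotient_of_finiteIndex
  refine ⟨N ⧸ K.subgroupOf N, inferInstance, hq, QuotientGroup.mk' _, ?_, ?_⟩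
  · intro q
    obtain ⟨x, rfl⟩ := QuotientGroup.mk_surjective q
    refine ⟨e, ?_⟩
    rw [← QuotientGroup.mk_pow, QuotientGroup.eq_one_iff, Subgroup.mem_subgroupOf]
    exact he x x.2
  · intro h
    exact hgK (Subgroup.mem_subgroupOf.1 ((QuotientGroup.eq_one_iff g).1 h))

theorem w_of_series {R : Type u} [CommRing R] {H : Type v} [Group H] (h : Series R H) : W R H := by
  obtain ⟨k, S, h0, hk, hstep⟩ := h
  have key : ∀ i, i ≤ k → W R (S i) := by
    intro i
    induction i with
    | zero =>
      intro _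
      rw [h0]
      intro m _ b _
      exact ⟨1, one_pos, fun i => Subsingleton.elim _ _⟩
    | succ i ih =>
      intro hi
      have hW := ih (by omega)
      obtain ⟨hle, hs⟩ := hstep i (by omega)
      have hhom : ∀ (Q : Type) [Group Q] (f : S (i + 1) →* Q),
          (∀ x : S (i + 1), f x = 1 ↔ (x : H) ∈ S i) → W R Q → W R (S (i + 1)) := by
        intro Q _ f hf hQ
        apply W.ext f hQ
        let j : f.ker →* S i :=
          { toFun := fun x => ⟨x.1.1, (hf x.1).1 x.2⟩
            map_one' := rfl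
            map_mul' := fun x y => rfl }
        apply hW.sub j
        intro x y hxy
        have h3 : ((j x : S i) : H) = ((j y : S i) : H) := congrArg Subtype.val hxy
        exact Subtype.ext (Subtype.ext h3)
      have hsub : W R ((S i).subgroupOf (S (i + 1))) :=
        hW.sub ((Subgroup.subgroupOfEquivOfLe hle).toMonoidHom)
          (Subgroup.subgroupOfEquivOfLe hle).injective
      rcases hs with hs | ⟨Γ, _, f, hf, hL⟩ | ⟨Γ, _, f, hf, hfg, hL⟩ | ⟨A, _, f, hf, hft, hL⟩ | hs
      · exact W.fi ((S i).subgroupOf (S (i + 1))) ⟨hs⟩ hsub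
      · exact hhom _ f hf (W.of_RP (Enough.mono (R := R) hL fun p hp h => h.rp hp))
      · exact hhom _ f hf (W.of_RP (Enough.mono (R := R) hL fun p hp h => (h.rp hp).aut hp))
      · exact hhom _ f hf (W.of_RP (Enough.mono (R := R) hL fun p _ h => RP.ringAut' A h))
      · refine W.resid ((S i).subgroupOf (S (i + 1))) hsub fun x hx => ?_
        refine Enough.mono (R := R) (hs x fun h => hx (Subgroup.mem_subgroupOf.2 h))
          fun p _ h => ?_
        obtain ⟨F, h1, h2, f, h3, h4, h5⟩ := h
        exact ⟨F, h1, h2, f, h3, fun y hy => h4 y (Subgroup.mem_subgroupOf.1 hy), h5⟩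
  have h1 := key k le_rfl
  rw [hk] at h1
  exact h1.sub (Subgroup.topEquiv (G := H)).symm.toMonoidHom
    (Subgroup.topEquiv (G := H)).symm.injective

theorem bass_of_local_w {R : Type u} [CommRing R] [IsDomain R] {G : Type v} [Group G]
    (h : ∀ H : Subgroup G, H.FG → W R H) : BassFor R G := by
  intro k A hA g hg
  exact Pool.Agent.H26R2.Bass.bass_of_local (fun H hH x hx => good_of_W (h H hH) x hx) A hA g hg

/-- 1. Let `R` be a commutative domain and `G` a group all of whose finitely generated subgroups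
have a finite series of steps as above. Then the Bass trace conjecture holds for `R` and `G`.
2. Let `B` be a finitely generated commutative algebra over a field `K` of characteristic zero.
Then the Bass trace conjecture holds for the automorphism group of the algebra `B` over every domain
of characteristic zero. Each finitely generated subgroup `Γ` of this group is virtually residually a
finite `p`-group for almost all primes `p`, and the Bass trace conjecture holds for `Aut Γ` over
every domain of characteristic zero.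
3. Let `Γ` be a finitely generated linear group over a field of characteristic zero. Then `Γ` is
virtually residually a finite `p`-group for almost all primes `p`, and the Bass trace conjecture
holds for `Aut Γ` over every domain of characteristic zero.
4. Let `A_M` be an Artin group in which no three distinct generators `i, j, k` have `m_ij` and
`m_jk` finite and at least three and `m_ik` finite. Then `A_M` is virtually residually a finite
`p`-group for all primes `p`, and the Bass trace conjecture holds for its automorphism group over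
every commutative domain. -/
theorem result :
    (∀ (R : Type u) [CommRing R] [IsDomain R] (G : Type v) [Group G],
      (∀ H : Subgroup G, H.FG → Series R H) → BassFor R G) ∧
    (∀ (K B : Type) [Field K] [CharZero K] [CommRing B] [Algebra K B] [Algebra.FiniteType K B],
      (∀ (R : Type u) [CommRing R] [IsDomain R] [CharZero R], BassFor R (B ≃ₐ[K] B)) ∧
      ∀ Γ : Subgroup (B ≃ₐ[K] B), Γ.FG →
        (∃ E : Finset ℕ, ∀ p : ℕ, p.Prime → p ∉ E → VRes p Γ) ∧
        ∀ (R : Type u) [CommRing R] [IsDomain R] [CharZero R], BassFor R (MulAut Γ)) ∧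
    (∀ (K : Type) [Field K] [CharZero K] (n : ℕ) (Γ : Subgroup (GL (Fin n) K)), Γ.FG →
      (∃ E : Finset ℕ, ∀ p : ℕ, p.Prime → p ∉ E → VRes p Γ) ∧
      ∀ (R : Type u) [CommRing R] [IsDomain R] [CharZero R], BassFor R (MulAut Γ)) ∧
    (∀ (n : ℕ) (M : CoxeterMatrix (Fin n)),
      (∀ i j k : Fin n, i ≠ k → 3 ≤ M.M i j → 3 ≤ M.M j k → M.M i k = 0) →
      (∀ p : ℕ, p.Prime → VRes p (ArtinGroup M)) ∧
      ∀ (R : Type u) [CommRing R] [IsDomain R], BassFor R (MulAut (ArtinGroup M))) := by
  have haut : ∀ (Γ : Type) [Group Γ], Group.FG Γ → ∀ E : Finset ℕ,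
      (∀ p : ℕ, p.Prime → p ∉ E → RP p Γ) →
      ∀ (R : Type u) [CommRing R] [IsDomain R] [CharZero R], BassFor R (MulAut Γ) := by
    intro Γ _ hΓ E hE R _ _ _
    refine bass_of_local_w fun H _ => W.sub H.subtype H.subtype_injective (W.of_RP ?_)
    exact Enough.of_finset E fun p hp hpE => (hE p hp hpE).aut hp
  have hmodel : ∀ (K B : Type) [Field K] [CharZero K] [CommRing B] [Algebra K B]
      [Algebra.FiniteType K B] (H : Subgroup (B ≃ₐ[K] B)), H.FG →
      ∃ E : Finset ℕ, ∀ p : ℕ, p.Prime → p ∉ E → RP p H := by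
    intro K B _ _ _ _ _ H hH
    obtain ⟨A, _, _, f, htf, hf⟩ := exists_model H hH
    obtain ⟨E, hE⟩ := nonunit_assoc A htf
    exact ⟨E, fun p hp hpE => (RP.ringAut' A (hE p hp hpE)).sub f hf⟩
  refine ⟨?_, ?_, ?_, ?_⟩
  · intro R _ _ G _ h
    exact bass_of_local_w fun H hH => w_of_series (h H hH)
  · intro K B _ _ _ _ _
    refine ⟨?_, ?_⟩
    · intro R _ _ _
      refine bass_of_local_w fun H hH => ?_
      obtain ⟨E, hE⟩ := hmodel K B H hH
      exact W.of_RP (Enough.of_finset E hE)
    · intro Γ hΓ
      obtain ⟨E, hE⟩ := hmodel K B Γ hΓ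
      exact ⟨⟨E, fun p hp hpE => vres_of_rp (hE p hp hpE)⟩,
        haut Γ ((Group.fg_iff_subgroup_fg Γ).2 hΓ) E hE⟩
  · intro K _ _ n Γ hΓ
    obtain ⟨E, hE⟩ := RP.linear Γ hΓ
    exact ⟨⟨E, fun p hp hpE => vres_of_rp (hE p hp hpE)⟩,
      haut Γ ((Group.fg_iff_subgroup_fg Γ).2 hΓ) E hE⟩
  · intro n M hR
    have key : ∀ S : Set (FreeGroup (Fin n)), S = Pool.Agent.TH107.RF.rels M →
        (∀ p : ℕ, p.Prime → VRes p (PresentedGroup S)) ∧
        ∀ (R : Type u) [CommRing R] [IsDomain R], BassFor R (MulAut (PresentedGroup S)) := by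
      rintro S rfl
      have h1 : ∀ p : ℕ, p.Prime → VRes p (PresentedGroup (Pool.Agent.TH107.RF.rels M)) := by
        intro p hp
        obtain ⟨N, _, h2, h3⟩ := Pool.Agent.TH107.RF.virt_res_p M hR p hp
        refine ⟨N, h2, fun g hg => ?_⟩
        obtain ⟨K, hK, h4, h5, h6⟩ := h3 g hg
        exact ⟨N ⧸ K, inferInstance, h4, QuotientGroup.mk' K, h5,
          fun h => h6 ((QuotientGroup.eq_one_iff g).1 h)⟩
      refine ⟨h1, ?_⟩
      intro R _ _
      have hfg : Group.FG (PresentedGroup (Pool.Agent.TH107.RF.rels M)) :=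
        Group.fg_of_surjective (f := PresentedGroup.mk (Pool.Agent.TH107.RF.rels M))
          (QuotientGroup.mk_surjective)
      by_cases hu : ∃ p : ℕ, p.Prime ∧ ¬ IsUnit (p : R)
      · obtain ⟨p, hp, hpR⟩ := hu
        refine bass_of_local_w fun H _ => W.sub H.subtype H.subtype_injective (W.of_RP ?_)
        exact Or.inl ⟨p, hp, hpR, ((h1 p hp).rp hp).aut hp⟩
      · push Not at hu
        have hchar : CharZero R := by
          obtain ⟨q, hq⟩ := CharP.exists R
          rcases CharP.char_is_prime_or_zero R q with h | h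
          · exfalso
            have h2 := hu q h
            rw [CharP.cast_eq_zero R q] at h2
            exact not_isUnit_zero h2
          · subst h
            exact CharP.charP_to_charZero R
        exact haut _ hfg ∅ (fun p hp _ => (h1 p hp).rp hp) R
    exact key _ (Pool.Agent.TH107.RF.rels_eq M)

end Pool.Agent.Results.MP_7903c7_al.AutomorphismGroups
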