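import Mathlib
import Pool.Agent.H26R2.Bass.Main

/-!
The Bass trace conjecture over every commutative domain for groups with a good series.
-/

set_option autoImplicit false

namespace Pool.Agent.Results.MP_7903c7_al.GoodSeries

open Pool.Agent.H26R2.Bass (BassFor Admissible)

universe u v

/-- Let `R` be a commutative domain and `G` a group that is admissible for `R`, or all of whose
finitely generated subgroups are admissible for `R`. Then the Bass trace conjecture holds for `R`
and `G`. -/
theorem result (R : Type u) [CommRing R] [IsDomain R] (G : Type v) [Group G]
    (hG : Admissible R G ∨ ∀ H : Subgroup G, H.FG → Admissible R H) : BassFor R G := by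
  intro n A hA g hg
  exact Pool.Agent.H26R2.Bass.bass_main hG A hA g hg

end Pool.Agent.Results.MP_7903c7_al.GoodSeries
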