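import Pool.Agent.TH357.SN.S4

set_option autoImplicit false

/-! Idempotent matrices of small norm over group rings: the Hattori-Stallings rank comes from a
finite subgroup. -/

noncomputable section

namespace Pool.Agent.Results.MP_7903c7_al.SmallNormMatrices

/-- `ν` is an algebra norm on `n × n` matrices over the complete valued field `K`, which contains
the domain `R`; `∑ g, ν (A_g) < 3/√8` for the matrices `A_g` of coefficients at `g` of the
idempotent matrix `A` over the group ring of the arbitrary group `G`. -/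
theorem result {R : Type*} [CommRing R] [IsDomain R] {G : Type*} [Group G] {n : ℕ}
    {K : Type*} [NontriviallyNormedField K] [CompleteSpace K] (φ : R →+* K)
    (hφ : Function.Injective φ) (ν : AlgebraNorm K (Matrix (Fin n) (Fin n) K))
    (A : Matrix (Fin n) (Fin n) (MonoidAlgebra R G)) (hA : A * A = A)
    (c : ℝ) (hc : c ^ 2 < 9 / 8)
    (hν : ∀ S : Finset G, ∑ g ∈ S, ν (Matrix.of fun i j => φ ((A i j).coeff g)) ≤ c) :
    ∃ (H : Subgroup G) (P : Matrix (Fin n) (Fin n) (MonoidAlgebra K G)),
      Finite H ∧ P * P = P ∧ (∀ i j, ∀ g, g ∉ H → (P i j).coeff g = 0) ∧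
      (∀ S : Finset G, ∑ g ∈ S, ν (Matrix.of fun i j => φ ((A i j).coeff g) - (P i j).coeff g)
        < 3 / 10) ∧
      (∀ g : G, φ (∑ i : Fin n, ∑ᶠ (h : G) (_ : IsConj h g), (A i i).coeff h) =
        ∑ i : Fin n, ∑ᶠ (h : G) (_ : IsConj h g), (P i i).coeff h) ∧
      (∀ g : G, ¬ IsUnit ((orderOf g : ℕ) : R) →
        ∑ i : Fin n, ∑ᶠ (h : G) (_ : IsConj h g), (A i i).coeff h = 0) :=
  TH357SN.main φ hφ ν A hA c hc hν

end Pool.Agent.Results.MP_7903c7_al.SmallNormMatrices
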