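import Pool.Agent.TH57.TT2.Bass

set_option autoImplicit false

/-! The Bass trace conjecture, over every commutative domain and for every group, for all finitely
generated projective modules that have a presentation matrix with at most two nonzero coefficients
in every row, or with at most as many nonzero coefficients as rows and columns in every direct
summand. -/

namespace Pool.Agent.Results.MP_7903c7_al.SparsePresentations

open TH57.TT2 TH6.PF Matrix

/-- `P = (RG)^k · A` with `A` idempotent is isomorphic to `(RG)^n` modulo the rows of the `m × n`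
matrix `M`; the number of nonzero coefficients of an entry is the number of group elements with
nonzero coefficient. -/
theorem result (R : Type) [CommRing R] [IsDomain R] (G : Type) [Group G] (k m n : ℕ)
    (A : Matrix (Fin k) (Fin k) (MonoidAlgebra R G)) (hA : A * A = A)
    (M : Matrix (Fin m) (Fin n) (MonoidAlgebra R G))
    (hM : (∀ i, ∑ j, (M i j).coeff.support.card ≤ 2) ∨
      (∀ (S : Finset (Fin m)) (T : Finset (Fin n)), (∀ i j, M i j ≠ 0 → (i ∈ S ↔ j ∈ T)) →
        ∑ i ∈ S, ∑ j ∈ T, (M i j).coeff.support.card ≤ S.card + T.card))
    (φ : LinearMap.range A.vecMulLinear ≃ₗ[MonoidAlgebra R G]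
      ((Fin n → MonoidAlgebra R G) ⧸ LinearMap.range M.vecMulLinear))
    (g : G) (hg : ¬ IsUnit ((orderOf g : ℕ) : R)) :
    ∑ i : Fin k, ∑ᶠ (h : G) (_ : IsConj h g), (A i i).coeff h = 0 :=
  bass_main A hA M hM φ g hg

end Pool.Agent.Results.MP_7903c7_al.SparsePresentations
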